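import Pool.Graph.R_seed8.R217.PC.Conc

/-!
# Concentration at the scale of the core

Least energy solutions of `-Δu + u = Q_ε |u|^(p-2) u`, where `Q_ε = 1` on the balls of radius `ε`
around the integer points and `Q_ε = -1` elsewhere, concentrate, after an integer translation, in
every sequence of balls `B_{r_n}(0)` with `r_n / ε_n → ∞`.
-/

set_option autoImplicit false
set_option linter.unusedSectionVars false

open MeasureTheory Filter Topology
open scoped ContDiff ENNReal NNReal RealInnerProductSpace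

namespace Pool.Agent.Results.MP_9ab776_an.ConcentrationScale

open Pool.Agent.R217.BN (E cexp sobS)
open Pool.Agent.R217.HS
open Pool.Agent.R217.PC

variable {n : ℕ}

/-- Global concentration in shrinking balls, at every scale larger than `ε`; no concentration at
smaller scales. -/
theorem concentration (hn : 2 ≤ n) {q : ℝ} (hq : 2 < q) (hq' : ((n:ℝ) - 2) * q < 2 * n)
    {ε : ℕ → ℝ} (hε0 : ∀ k, 0 < ε k) (hε1 : ∀ k, ε k ≤ 1) (hε : Tendsto ε atTop (𝓝 0))
    {u : ℕ → E n → ℝ} {G : ℕ → E n → E n} (h : ∀ k, LES n q (ε k) (u k) (G k)) :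
    ∃ z : ℕ → Fin n → ℤ, ∀ r : ℕ → ℝ, Tendsto (fun k => r k / ε k) atTop atTop →
      Tendsto (fun k =>
        (∫ x in Metric.ball (0 : E n) (r k),
          (‖G k (x + lat (z k))‖ ^ 2 + u k (x + lat (z k)) ^ 2)) /
          ∫ x, (‖G k (x + lat (z k))‖ ^ 2 + u k (x + lat (z k)) ^ 2)) atTop (𝓝 1) ∧
      Tendsto (fun k => (∫ x in Metric.ball (0 : E n) (r k), |u k (x + lat (z k))| ^ q) /
          ∫ x, |u k (x + lat (z k))| ^ q) atTop (𝓝 1) := by
  obtain ⟨z, c, hc, hcon⟩ := exists_z hn hq hq' hε0 hε h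
  refine ⟨z, fun δ hδ => ?_⟩
  obtain ⟨M, hM⟩ := Sc_bound2 hn hq hq'
  obtain ⟨Ce, -, hCe⟩ := emb hn hq.le hq'
  have hq2 : 0 < q - 2 := by linarith
  obtain ⟨v, hv⟩ : ∃ v : ℕ → E n → ℝ, v = fun k => vs q (ε k) (u k) (z k) := ⟨_, rfl⟩
  obtain ⟨W, hW⟩ : ∃ W : ℕ → E n → E n, W = fun k => Gs q (ε k) (G k) (z k) := ⟨_, rfl⟩
  have hsc : ∀ k, Sc n q (ε k) (v k) (W k) := by
    intro k; rw [hv, hW]; exact (h k).sc hq (hε0 k) (z k)
  have hcon' : ∀ᶠ k in atTop, c ≤ ∫ x in Metric.ball (0 : E n) 1, |v k x| ^ q := by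
    rw [hv]; exact hcon
  -- the ratios in the scaled variables
  have r1 : ∀ k, (∫ x in Metric.ball (0 : E n) (δ k),
        (‖G k (x + lat (z k))‖ ^ 2 + u k (x + lat (z k)) ^ 2)) /
          ∫ x, (‖G k (x + lat (z k))‖ ^ 2 + u k (x + lat (z k)) ^ 2) =
      (∫ x in Metric.ball (0 : E n) (δ k / ε k), (‖W k x‖ ^ 2 + ε k ^ 2 * v k x ^ 2)) /
        ∫ x, (‖W k x‖ ^ 2 + ε k ^ 2 * v k x ^ 2) := by
    intro k
    obtain ⟨b, hb⟩ : ∃ b, b = ε k ^ (2 / (q - 2)) := ⟨_, rfl⟩
    have hεk := hε0 k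
    have hb0 : 0 < b := by rw [hb]; positivity
    have e : ∀ x, ‖W k x‖ ^ 2 + ε k ^ 2 * v k x ^ 2 = b ^ 2 * ε k ^ 2 *
        (fun y => ‖G k (y + lat (z k))‖ ^ 2 + u k (y + lat (z k)) ^ 2) (ε k • x) := by
      intro x
      rw [hW, hv]
      simp only [vs, Gs]
      rw [← hb, norm_smul, norm_smul, mul_pow, mul_pow, mul_pow, Real.norm_eq_abs,
        Real.norm_eq_abs, sq_abs, sq_abs]
      ring
    simp_rw [e]
    rw [integral_const_mul, integral_const_mul,
      setInt_dil (fun y => ‖G k (y + lat (z k))‖ ^ 2 + u k (y + lat (z k)) ^ 2) hεk (δ k),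
      int_dil (fun y => ‖G k (y + lat (z k))‖ ^ 2 + u k (y + lat (z k)) ^ 2) hεk,
      ← mul_assoc, ← mul_assoc, mul_div_mul_left]
    positivity
  have r2 : ∀ k, (∫ x in Metric.ball (0 : E n) (δ k), |u k (x + lat (z k))| ^ q) /
          ∫ x, |u k (x + lat (z k))| ^ q =
      (∫ x in Metric.ball (0 : E n) (δ k / ε k), |v k x| ^ q) / ∫ x, |v k x| ^ q := by
    intro k
    obtain ⟨b, hb⟩ : ∃ b, b = ε k ^ (2 / (q - 2)) := ⟨_, rfl⟩
    have hεk := hε0 k
    have hb0 : 0 < b := by rw [hb]; positivity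
    have e : ∀ x, |v k x| ^ q = b ^ q *
        (fun y => |u k (y + lat (z k))| ^ q) (ε k • x) := by
      intro x
      rw [hv]
      simp only [vs]
      rw [← hb, abs_mul, Real.mul_rpow (abs_nonneg _) (abs_nonneg _), abs_of_pos hb0]
    simp_rw [e]
    rw [integral_const_mul, integral_const_mul,
      setInt_dil (fun y => |u k (y + lat (z k))| ^ q) hεk (δ k),
      int_dil (fun y => |u k (y + lat (z k))| ^ q) hεk,
      ← mul_assoc, ← mul_assoc, mul_div_mul_left]
    positivity
  simp_rw [r1, r2]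
  -- subsequences
  have hmain : ∀ ns : ℕ → ℕ, Tendsto ns atTop atTop → ∃ ms : ℕ → ℕ,
      Tendsto (fun k => (∫ x in Metric.ball (0 : E n) (δ (ns (ms k)) / ε (ns (ms k))),
        (‖W (ns (ms k)) x‖ ^ 2 + ε (ns (ms k)) ^ 2 * v (ns (ms k)) x ^ 2)) /
        ∫ x, (‖W (ns (ms k)) x‖ ^ 2 + ε (ns (ms k)) ^ 2 * v (ns (ms k)) x ^ 2)) atTop (𝓝 1) ∧
      Tendsto (fun k => (∫ x in Metric.ball (0 : E n) (δ (ns (ms k)) / ε (ns (ms k))), |v (ns (ms k)) x| ^ q) /
        ∫ x, |v (ns (ms k)) x| ^ q) atTop (𝓝 1) := by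
    intro ns hns
    obtain ⟨w, H, ms, hms, hcd⟩ := comp hn hq hq' (fun k => (hsc (ns k)).h1) (M := M)
      (fun k => (hM _ (hε0 _) (hε1 _) _ _ (hsc (ns k))).1)
      (fun k => (hM _ (hε0 _) (hε1 _) _ _ (hsc (ns k))).2)
    refine ⟨ms, ?_⟩
    obtain ⟨js, hjs⟩ : ∃ js : ℕ → ℕ, js = fun k => ns (ms k) := ⟨_, rfl⟩
    have hj : Tendsto js atTop atTop := by rw [hjs]; exact hns.comp hms.tendsto_atTop
    have ej : ∀ k, ns (ms k) = js k := fun k => by rw [hjs]
    simp_rw [ej] at hcd ⊢
    have hεj : Tendsto (fun k => ε (js k)) atTop (𝓝 0) := hε.comp hj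
    have hw := w_ne hn hq hq' (fun k => (hsc (js k)).h1) hcd hc (hj.eventually hcon')
    have hMj : ∀ k, ∫ x, ‖W (js k) x‖ ^ 2 ≤ M := fun k =>
      (hM _ (hε0 _) (hε1 _) _ _ (hsc (js k))).1
    obtain ⟨hD, -, hGc, hNc, hGs⟩ := energy_conv hn hq hq' (fun k => hε0 (js k)) hεj
      (fun k => hsc (js k)) hMj hcd hw
    have hqs := strong_q hn hq hq' (fun k => hε0 (js k)) hεj (fun k => hsc (js k)) hMj hcd hw
    have hi : ∀ k, Integrable (fun x => |v (js k) x| ^ q) := fun k => (hCe _ _ (hsc (js k)).h1).1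
    have hT1 : ∀ k, ∫ x, (‖W (js k) x‖ ^ 2 + ε (js k) ^ 2 * v (js k) x ^ 2) =
        (∫ x, ‖W (js k) x‖ ^ 2) + ε (js k) ^ 2 * ∫ x, v (js k) x ^ 2 := by
      intro k
      rw [integral_add (hsc (js k)).h1.int_grad ((hsc (js k)).h1.int_sq.const_mul _),
        integral_const_mul]
    have hint : ∀ k, Integrable (fun x => ‖W (js k) x‖ ^ 2 + ε (js k) ^ 2 * v (js k) x ^ 2) :=
      fun k => (hsc (js k)).h1.int_grad.add ((hsc (js k)).h1.int_sq.const_mul _)
    have hbig : ∀ R : ℕ, ∀ᶠ k in atTop, (R:ℝ) + 1 ≤ δ (js k) / ε (js k) := fun R =>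
      (hδ.comp hj).eventually_ge_atTop _
    constructor
    · have hTl : Tendsto (fun k => ∫ x, (‖W (js k) x‖ ^ 2 + ε (js k) ^ 2 * v (js k) x ^ 2)) atTop
          (𝓝 (∫ x, ‖H x‖ ^ 2)) := by
        have := hGc.add hNc
        rw [add_zero] at this
        exact this.congr fun k => (hT1 k).symm
      have hAl : Tendsto (fun k => ∫ x in Metric.ball (0 : E n) (δ (js k) / ε (js k)),
          (‖W (js k) x‖ ^ 2 + ε (js k) ^ 2 * v (js k) x ^ 2)) atTop (𝓝 (∫ x, ‖H x‖ ^ 2)) := by
        refine inner_conv (fun k => ?_) hTl (ball_lim (integrable_sq hcd.hH))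
          (s := fun R k => ∫ x in Metric.ball (0 : E n) (R + 1), ‖W (js k) x‖ ^ 2)
          (fun R => set_lim (fun k => (hsc (js k)).h1.mG) hcd.hH hGs) (fun R => ?_)
        · exact setIntegral_le_integral (hint k) (Eventually.of_forall fun x => by positivity)
        · filter_upwards [hbig R] with k hk
          refine le_trans (setIntegral_mono (hsc (js k)).h1.int_grad.integrableOn
            (hint k).integrableOn fun x => ?_) (setIntegral_mono_set (hint k).integrableOn
              (Eventually.of_forall fun x => by positivity)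
              (LE.le.eventuallyLE (Metric.ball_subset_ball hk)))
          have : 0 ≤ ε (js k) ^ 2 * v (js k) x ^ 2 := by positivity
          linarith
      have := hAl.div hTl hD.ne'
      rw [div_self hD.ne'] at this
      exact this
    · have hqT : Tendsto (fun k => ∫ x, |v (js k) x| ^ q) atTop (𝓝 (∫ x, |w x| ^ q)) := by
        have := tendsto_int_rpow (μ := (volume : Measure (E n))) (show 1 ≤ q by linarith)
          (f := fun k x => v (js k) x) (f0 := w) (g := fun _ => 1) (B := 1) (by simp)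
          aestronglyMeasurable_const hi hcd.hq (fun k => by
            have i0 : Integrable (fun x => 2 ^ (q - 1) * |v (js k) x| ^ q +
              2 ^ (q - 1) * |w x| ^ q) := ((hi k).const_mul _).add (hcd.hq.const_mul _)
            refine i0.mono' (((hsc (js k)).h1.mu.1.sub hcd.hm).norm.aemeasurable.pow_const
              q).aestronglyMeasurable (Eventually.of_forall fun x => ?_)
            rw [Real.norm_eq_abs, abs_of_nonneg (by positivity)]
            have := half_bound (show 1 ≤ q by linarith) (v (js k) x - w x) (v (js k) x)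
            rwa [sub_sub_cancel] at this) hqs
        simpa only [one_mul] using this
      have hP : 0 < ∫ x, |w x| ^ q := by
        have h0 : 0 ≤ ∫ x, |w x| ^ q := integral_nonneg fun x => by positivity
        rcases eq_or_lt_of_le h0 with h1 | h1
        · exfalso
          have h2 := (integral_eq_zero_iff_of_nonneg (fun x => by positivity) hcd.hq).1 h1.symm
          apply hw
          filter_upwards [h2] with x hx
          have hx' : |w x| ^ q = 0 := hx
          rw [Real.rpow_eq_zero (abs_nonneg _) (by linarith)] at hx'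
          simpa using hx'
        · exact h1
      have hAl : Tendsto (fun k => ∫ x in Metric.ball (0 : E n) (δ (js k) / ε (js k)),
          |v (js k) x| ^ q) atTop (𝓝 (∫ x, |w x| ^ q)) := by
        refine inner_conv (fun k => ?_) hqT (ball_lim hcd.hq)
          (s := fun R k => ∫ x in Metric.ball (0 : E n) (R + 1), |v (js k) x| ^ q)
          (fun R => ?_) (fun R => ?_)
        · exact setIntegral_le_integral (hi k) (Eventually.of_forall fun x => by positivity)
        · have hbm : MeasurableSet (Metric.ball (0 : E n) (R + 1)) :=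
            Metric.isOpen_ball.measurableSet
          have := loc_q hn hq hq' (fun k => (hsc (js k)).h1) hcd (show (0:ℝ) < R + 1 by positivity)
            (g := (Metric.ball (0 : E n) (R + 1)).indicator (fun _ => (1:ℝ))) (B := 1)
            (fun x => by
              by_cases hx : x ∈ Metric.ball (0 : E n) (R + 1)
              · rw [Set.indicator_of_mem hx]; simp
              · rw [Set.indicator_of_notMem hx]; simp)
            (measurable_const.indicator hbm).aestronglyMeasurable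
            (fun x hx => (mem_ball_zero_iff.1 (Set.mem_of_indicator_ne_zero hx)).le)
          have e : ∀ u : E n → ℝ, ∫ x, (Metric.ball (0 : E n) (R + 1)).indicator
              (fun _ => (1:ℝ)) x * |u x| ^ q =
              ∫ x in Metric.ball (0 : E n) (R + 1), |u x| ^ q := by
            intro u
            rw [← integral_indicator hbm]
            congr 1; funext x
            by_cases hx : x ∈ Metric.ball (0 : E n) (R + 1)
            · rw [Set.indicator_of_mem hx, Set.indicator_of_mem hx, one_mul]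
            · rw [Set.indicator_of_notMem hx, Set.indicator_of_notMem hx, zero_mul]
          simp only [e] at this
          exact this
        · filter_upwards [hbig R] with k hk
          exact setIntegral_mono_set (hi k).integrableOn
              (Eventually.of_forall fun x => by positivity)
              (LE.le.eventuallyLE (Metric.ball_subset_ball hk))
      have := hAl.div hqT hP.ne'
      rw [div_self hP.ne'] at this
      exact this
  constructor
  · apply tendsto_of_subseq_tendsto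
    intro ns hns
    obtain ⟨ms, h1, -⟩ := hmain ns hns
    exact ⟨ms, h1⟩
  · apply tendsto_of_subseq_tendsto
    intro ns hns
    obtain ⟨ms, -, h1⟩ := hmain ns hns
    exact ⟨ms, h1⟩


/-- the volume of shrinking balls -/
lemma vol_small (hn : 2 ≤ n) {b : ℕ → E n} {ρ : ℕ → ℝ} (hρ : Tendsto ρ atTop (𝓝 0)) :
    Tendsto ((volume : Measure (E n)) ∘ fun k => Metric.ball (b k) (ρ k)) atTop (𝓝 0) := by
  have h1 : ∀ k, (volume : Measure (E n)) (Metric.ball (b k) (ρ k)) ≤
      ENNReal.ofReal (|ρ k| ^ n) * (volume : Measure (E n)) (Metric.ball (0 : E n) 1) := by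
    intro k
    rcases lt_or_ge 0 (ρ k) with h | h
    · rw [Measure.addHaar_ball_of_pos _ _ h, finrank_euclideanSpace, Fintype.card_fin, abs_of_pos h]
    · rw [Metric.ball_eq_empty.2 h, measure_empty]
      exact zero_le
  have h2 : Tendsto (fun k => ENNReal.ofReal (|ρ k| ^ n) *
      (volume : Measure (E n)) (Metric.ball (0 : E n) 1)) atTop (𝓝 0) := by
    have h3 : Tendsto (fun k => |ρ k| ^ n) atTop (𝓝 0) := by
      have := (hρ.abs).pow n
      rwa [abs_zero, zero_pow (by omega)] at this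
    have h4 := ENNReal.tendsto_ofReal h3
    rw [ENNReal.ofReal_zero] at h4
    have h5 := ENNReal.Tendsto.mul_const h4
      (b := (volume : Measure (E n)) (Metric.ball (0 : E n) 1)) (Or.inr measure_ball_lt_top.ne)
    rwa [zero_mul] at h5
  exact tendsto_of_tendsto_of_tendsto_of_le_of_le tendsto_const_nhds h2 (fun k => zero_le) h1

/-- No concentration at scales smaller than `ε`, and the `L²` part of the energy is negligible. -/
theorem small (hn : 2 ≤ n) {q : ℝ} (hq : 2 < q) (hq' : ((n:ℝ) - 2) * q < 2 * n)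
    {ε : ℕ → ℝ} (hε0 : ∀ k, 0 < ε k) (hε1 : ∀ k, ε k ≤ 1) (hε : Tendsto ε atTop (𝓝 0))
    {u : ℕ → E n → ℝ} {G : ℕ → E n → E n} (h : ∀ k, LES n q (ε k) (u k) (G k))
    (a : ℕ → E n) (r : ℕ → ℝ) (hr : Tendsto (fun k => r k / ε k) atTop (𝓝 0)) :
    Tendsto (fun k => (∫ x in Metric.ball (a k) (r k), (‖G k x‖ ^ 2 + u k x ^ 2)) /
      ∫ x, (‖G k x‖ ^ 2 + u k x ^ 2)) atTop (𝓝 0) ∧
    Tendsto (fun k => (∫ x in Metric.ball (a k) (r k), |u k x| ^ q) /
      ∫ x, |u k x| ^ q) atTop (𝓝 0) ∧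
    Tendsto (fun k => (∫ x, u k x ^ 2) / ∫ x, ‖G k x‖ ^ 2) atTop (𝓝 0) := by
  obtain ⟨z, c, hc, hcon⟩ := exists_z hn hq hq' hε0 hε h
  obtain ⟨M, hM⟩ := Sc_bound2 hn hq hq'
  obtain ⟨Ce, -, hCe⟩ := emb hn hq.le hq'
  have hq2 : 0 < q - 2 := by linarith
  obtain ⟨v, hv⟩ : ∃ v : ℕ → E n → ℝ, v = fun k => vs q (ε k) (u k) (z k) := ⟨_, rfl⟩
  obtain ⟨W, hW⟩ : ∃ W : ℕ → E n → E n, W = fun k => Gs q (ε k) (G k) (z k) := ⟨_, rfl⟩
  have hsc : ∀ k, Sc n q (ε k) (v k) (W k) := by
    intro k; rw [hv, hW]; exact (h k).sc hq (hε0 k) (z k)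
  have hcon' : ∀ᶠ k in atTop, c ≤ ∫ x in Metric.ball (0 : E n) 1, |v k x| ^ q := by
    rw [hv]; exact hcon
  obtain ⟨b, hb⟩ : ∃ b : ℕ → E n, b = fun k => (ε k)⁻¹ • (a k - lat (z k)) := ⟨_, rfl⟩
  -- change of variables
  have hball : ∀ (k : ℕ) (F K : E n → ℝ) (c : ℝ), (∀ x, K x = c * F (ε k • x + lat (z k))) →
      ∫ x in Metric.ball (b k) (r k / ε k), K x =
        c * ((ε k ^ n)⁻¹ * ∫ x in Metric.ball (a k) (r k), F x) := by
    intro k F K c hK
    have hεk := hε0 k
    rw [← setInt_shift K (b k) (r k / ε k)]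
    have e : ∀ x, K (x + b k) = c * (fun y => F (y + a k)) (ε k • x) := by
      intro x
      rw [hK, hb]
      simp only
      rw [smul_add, smul_inv_smul₀ hεk.ne']
      congr 2
      abel
    simp_rw [e]
    rw [integral_const_mul, setInt_dil (fun y => F (y + a k)) hεk (r k),
      setInt_shift F (a k) (r k)]
  have htot : ∀ (k : ℕ) (F K : E n → ℝ) (c : ℝ), (∀ x, K x = c * F (ε k • x + lat (z k))) →
      ∫ x, K x = c * ((ε k ^ n)⁻¹ * ∫ x, F x) := by
    intro k F K c hK
    simp_rw [hK]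
    rw [integral_const_mul, int_aff F (hε0 k) (lat (z k))]
  have e1 : ∀ k, ∀ x, ‖W k x‖ ^ 2 + ε k ^ 2 * v k x ^ 2 =
      ((ε k ^ (2 / (q - 2))) ^ 2 * ε k ^ 2) *
        (fun y => ‖G k y‖ ^ 2 + u k y ^ 2) (ε k • x + lat (z k)) := by
    intro k x
    obtain ⟨b', hb'⟩ : ∃ b', b' = ε k ^ (2 / (q - 2)) := ⟨_, rfl⟩
    rw [hW, hv]
    simp only [vs, Gs]
    rw [← hb', norm_smul, norm_smul, mul_pow, mul_pow, mul_pow, Real.norm_eq_abs,
      Real.norm_eq_abs, sq_abs, sq_abs]
    ring
  have e2 : ∀ k, ∀ x, |v k x| ^ q = (ε k ^ (2 / (q - 2))) ^ q *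
        (fun y => |u k y| ^ q) (ε k • x + lat (z k)) := by
    intro k x
    have hεk := hε0 k
    obtain ⟨b', hb'⟩ : ∃ b', b' = ε k ^ (2 / (q - 2)) := ⟨_, rfl⟩
    have hb0 : 0 < b' := by rw [hb']; positivity
    rw [hv]
    simp only [vs]
    rw [← hb', abs_mul, Real.mul_rpow (abs_nonneg _) (abs_nonneg _), abs_of_pos hb0]
  have e3 : ∀ k, ∀ x, ε k ^ 2 * v k x ^ 2 = ((ε k ^ (2 / (q - 2))) ^ 2 * ε k ^ 2) *
        (fun y => u k y ^ 2) (ε k • x + lat (z k)) := by
    intro k x
    rw [hv]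
    simp only [vs]
    ring
  have e4 : ∀ k, ∀ x, ‖W k x‖ ^ 2 = ((ε k ^ (2 / (q - 2))) ^ 2 * ε k ^ 2) *
        (fun y => ‖G k y‖ ^ 2) (ε k • x + lat (z k)) := by
    intro k x
    obtain ⟨b', hb'⟩ : ∃ b', b' = ε k ^ (2 / (q - 2)) := ⟨_, rfl⟩
    rw [hW]
    simp only [Gs]
    rw [← hb', norm_smul, norm_smul, mul_pow, mul_pow, Real.norm_eq_abs,
      Real.norm_eq_abs, sq_abs, sq_abs]
    ring
  have hcan : ∀ (k : ℕ) (c A B : ℝ), 0 < c →
      (c * ((ε k ^ n)⁻¹ * A)) / (c * ((ε k ^ n)⁻¹ * B)) = A / B := by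
    intro k c A B hc
    have hεk := hε0 k
    rw [← mul_assoc, ← mul_assoc, mul_div_mul_left]
    positivity
  have c1 : ∀ k, 0 < (ε k ^ (2 / (q - 2))) ^ 2 * ε k ^ 2 := fun k => by
    have := hε0 k
    positivity
  have c2 : ∀ k, 0 < (ε k ^ (2 / (q - 2))) ^ q := fun k => by
    have := hε0 k
    positivity
  have r1 : ∀ k, (∫ x in Metric.ball (a k) (r k), (‖G k x‖ ^ 2 + u k x ^ 2)) /
      ∫ x, (‖G k x‖ ^ 2 + u k x ^ 2) =
      (∫ x in Metric.ball (b k) (r k / ε k), (‖W k x‖ ^ 2 + ε k ^ 2 * v k x ^ 2)) /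
        ∫ x, (‖W k x‖ ^ 2 + ε k ^ 2 * v k x ^ 2) := by
    intro k
    rw [hball k (fun y => ‖G k y‖ ^ 2 + u k y ^ 2)
        (fun x => ‖W k x‖ ^ 2 + ε k ^ 2 * v k x ^ 2) _ (e1 k),
      htot k (fun y => ‖G k y‖ ^ 2 + u k y ^ 2)
        (fun x => ‖W k x‖ ^ 2 + ε k ^ 2 * v k x ^ 2) _ (e1 k), hcan k _ _ _ (c1 k)]
  have r2 : ∀ k, (∫ x in Metric.ball (a k) (r k), |u k x| ^ q) / ∫ x, |u k x| ^ q =
      (∫ x in Metric.ball (b k) (r k / ε k), |v k x| ^ q) / ∫ x, |v k x| ^ q := by
    intro k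
    rw [hball k (fun y => |u k y| ^ q) (fun x => |v k x| ^ q) _ (e2 k),
      htot k (fun y => |u k y| ^ q) (fun x => |v k x| ^ q) _ (e2 k), hcan k _ _ _ (c2 k)]
  have r3 : ∀ k, (∫ x, u k x ^ 2) / ∫ x, ‖G k x‖ ^ 2 =
      (∫ x, ε k ^ 2 * v k x ^ 2) / ∫ x, ‖W k x‖ ^ 2 := by
    intro k
    rw [htot k (fun y => u k y ^ 2) (fun x => ε k ^ 2 * v k x ^ 2) _ (e3 k),
      htot k (fun y => ‖G k y‖ ^ 2) (fun x => ‖W k x‖ ^ 2) _ (e4 k), hcan k _ _ _ (c1 k)]
  simp_rw [r1, r2, r3]
  -- subsequences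
  have hmain : ∀ ns : ℕ → ℕ, Tendsto ns atTop atTop → ∃ ms : ℕ → ℕ,
      Tendsto (fun k => (∫ x in Metric.ball (b (ns (ms k))) (r (ns (ms k)) / ε (ns (ms k))),
        (‖W (ns (ms k)) x‖ ^ 2 + ε (ns (ms k)) ^ 2 * v (ns (ms k)) x ^ 2)) /
        ∫ x, (‖W (ns (ms k)) x‖ ^ 2 + ε (ns (ms k)) ^ 2 * v (ns (ms k)) x ^ 2)) atTop (𝓝 0) ∧
      Tendsto (fun k => (∫ x in Metric.ball (b (ns (ms k))) (r (ns (ms k)) / ε (ns (ms k))),
        |v (ns (ms k)) x| ^ q) / ∫ x, |v (ns (ms k)) x| ^ q) atTop (𝓝 0) ∧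
      Tendsto (fun k => (∫ x, ε (ns (ms k)) ^ 2 * v (ns (ms k)) x ^ 2) /
        ∫ x, ‖W (ns (ms k)) x‖ ^ 2) atTop (𝓝 0) := by
    intro ns hns
    obtain ⟨w, H, ms, hms, hcd⟩ := comp hn hq hq' (fun k => (hsc (ns k)).h1) (M := M)
      (fun k => (hM _ (hε0 _) (hε1 _) _ _ (hsc (ns k))).1)
      (fun k => (hM _ (hε0 _) (hε1 _) _ _ (hsc (ns k))).2)
    refine ⟨ms, ?_⟩
    obtain ⟨js, hjs⟩ : ∃ js : ℕ → ℕ, js = fun k => ns (ms k) := ⟨_, rfl⟩
    have hj : Tendsto js atTop atTop := by rw [hjs]; exact hns.comp hms.tendsto_atTop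
    have ej : ∀ k, ns (ms k) = js k := fun k => by rw [hjs]
    simp_rw [ej] at hcd ⊢
    have hεj : Tendsto (fun k => ε (js k)) atTop (𝓝 0) := hε.comp hj
    have hw := w_ne hn hq hq' (fun k => (hsc (js k)).h1) hcd hc (hj.eventually hcon')
    have hMj : ∀ k, ∫ x, ‖W (js k) x‖ ^ 2 ≤ M := fun k =>
      (hM _ (hε0 _) (hε1 _) _ _ (hsc (js k))).1
    obtain ⟨hD, -, hGc, hNc, hGs⟩ := energy_conv hn hq hq' (fun k => hε0 (js k)) hεj
      (fun k => hsc (js k)) hMj hcd hw
    have hqs := strong_q hn hq hq' (fun k => hε0 (js k)) hεj (fun k => hsc (js k)) hMj hcd hw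
    have hi : ∀ k, Integrable (fun x => |v (js k) x| ^ q) := fun k => (hCe _ _ (hsc (js k)).h1).1
    have hρ : Tendsto (fun k => r (js k) / ε (js k)) atTop (𝓝 0) := hr.comp hj
    have hvol := vol_small hn (b := fun k => b (js k)) hρ
    have hT1 : ∀ k, ∫ x, (‖W (js k) x‖ ^ 2 + ε (js k) ^ 2 * v (js k) x ^ 2) =
        (∫ x, ‖W (js k) x‖ ^ 2) + ε (js k) ^ 2 * ∫ x, v (js k) x ^ 2 := by
      intro k
      rw [integral_add (hsc (js k)).h1.int_grad ((hsc (js k)).h1.int_sq.const_mul _),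
        integral_const_mul]
    have hint : ∀ k, Integrable (fun x => ‖W (js k) x‖ ^ 2 + ε (js k) ^ 2 * v (js k) x ^ 2) :=
      fun k => (hsc (js k)).h1.int_grad.add ((hsc (js k)).h1.int_sq.const_mul _)
    have hTl : Tendsto (fun k => ∫ x, (‖W (js k) x‖ ^ 2 + ε (js k) ^ 2 * v (js k) x ^ 2)) atTop
        (𝓝 (∫ x, ‖H x‖ ^ 2)) := by
      have := hGc.add hNc
      rw [add_zero] at this
      exact this.congr fun k => (hT1 k).symm
    refine ⟨?_, ?_, ?_⟩
    · have hH0 := (integrable_sq hcd.hH).tendsto_setIntegral_nhds_zero hvol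
      have hup : Tendsto (fun k => 2 * (∫ x, ‖W (js k) x - H x‖ ^ 2) +
          2 * (∫ x in Metric.ball (b (js k)) (r (js k) / ε (js k)), ‖H x‖ ^ 2) +
          ε (js k) ^ 2 * ∫ x, v (js k) x ^ 2) atTop (𝓝 0) := by
        have := ((hGs.const_mul 2).add (hH0.const_mul 2)).add hNc
        simpa using this
      have hA : Tendsto (fun k => ∫ x in Metric.ball (b (js k)) (r (js k) / ε (js k)),
          (‖W (js k) x‖ ^ 2 + ε (js k) ^ 2 * v (js k) x ^ 2)) atTop (𝓝 0) := by
        refine squeeze_zero (fun k => integral_nonneg fun x => by positivity) (fun k => ?_) hup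
        have i1 := (hsc (js k)).h1.int_grad
        have i2 : Integrable (fun x => ε (js k) ^ 2 * v (js k) x ^ 2) :=
          (hsc (js k)).h1.int_sq.const_mul _
        have i3 : Integrable (fun x => ‖W (js k) x - H x‖ ^ 2) :=
          integrable_sq ((hsc (js k)).h1.mG.sub hcd.hH)
        have i4 := integrable_sq hcd.hH
        rw [integral_add i1.integrableOn i2.integrableOn]
        have f1 : ∫ x in Metric.ball (b (js k)) (r (js k) / ε (js k)), ‖W (js k) x‖ ^ 2 ≤
            ∫ x in Metric.ball (b (js k)) (r (js k) / ε (js k)),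
              (2 * ‖W (js k) x - H x‖ ^ 2 + 2 * ‖H x‖ ^ 2) := by
          refine setIntegral_mono i1.integrableOn
            ((i3.const_mul 2).add (i4.const_mul 2)).integrableOn fun x => ?_
          have h1 := norm_add_le (W (js k) x - H x) (H x)
          rw [sub_add_cancel] at h1
          have h2 := norm_nonneg (W (js k) x)
          have h3 := norm_nonneg (W (js k) x - H x)
          have h4 := norm_nonneg (H x)
          show ‖W (js k) x‖ ^ 2 ≤ 2 * ‖W (js k) x - H x‖ ^ 2 + 2 * ‖H x‖ ^ 2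
          nlinarith [sq_nonneg (‖W (js k) x - H x‖ - ‖H x‖)]
        rw [integral_add (i3.const_mul 2).integrableOn (i4.const_mul 2).integrableOn,
          integral_const_mul, integral_const_mul] at f1
        have f2 : ∫ x in Metric.ball (b (js k)) (r (js k) / ε (js k)), ‖W (js k) x - H x‖ ^ 2 ≤
            ∫ x, ‖W (js k) x - H x‖ ^ 2 :=
          setIntegral_le_integral i3 (Eventually.of_forall fun x => by positivity)
        have f3 : ∫ x in Metric.ball (b (js k)) (r (js k) / ε (js k)),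
            ε (js k) ^ 2 * v (js k) x ^ 2 ≤ ε (js k) ^ 2 * ∫ x, v (js k) x ^ 2 := by
          rw [← integral_const_mul]
          exact setIntegral_le_integral i2 (Eventually.of_forall fun x => by positivity)
        linarith
      have := hA.div hTl hD.ne'
      rwa [zero_div] at this
    · have hqT : Tendsto (fun k => ∫ x, |v (js k) x| ^ q) atTop (𝓝 (∫ x, |w x| ^ q)) := by
        have := tendsto_int_rpow (μ := (volume : Measure (E n))) (show 1 ≤ q by linarith)
          (f := fun k x => v (js k) x) (f0 := w) (g := fun _ => 1) (B := 1) (by simp)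
          aestronglyMeasurable_const hi hcd.hq (fun k => by
            have i0 : Integrable (fun x => 2 ^ (q - 1) * |v (js k) x| ^ q +
              2 ^ (q - 1) * |w x| ^ q) := ((hi k).const_mul _).add (hcd.hq.const_mul _)
            refine i0.mono' (((hsc (js k)).h1.mu.1.sub hcd.hm).norm.aemeasurable.pow_const
              q).aestronglyMeasurable (Eventually.of_forall fun x => ?_)
            rw [Real.norm_eq_abs, abs_of_nonneg (by positivity)]
            have := half_bound (show 1 ≤ q by linarith) (v (js k) x - w x) (v (js k) x)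
            rwa [sub_sub_cancel] at this) hqs
        simpa only [one_mul] using this
      have hP : 0 < ∫ x, |w x| ^ q := by
        have h0 : 0 ≤ ∫ x, |w x| ^ q := integral_nonneg fun x => by positivity
        rcases eq_or_lt_of_le h0 with h1 | h1
        · exfalso
          have h2 := (integral_eq_zero_iff_of_nonneg (fun x => by positivity) hcd.hq).1 h1.symm
          apply hw
          filter_upwards [h2] with x hx
          have hx' : |w x| ^ q = 0 := hx
          rw [Real.rpow_eq_zero (abs_nonneg _) (by linarith)] at hx'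
          simpa using hx'
        · exact h1
      have hw0 := hcd.hq.tendsto_setIntegral_nhds_zero hvol
      have hup : Tendsto (fun k => 2 ^ (q - 1) * (∫ x, |v (js k) x - w x| ^ q) +
          2 ^ (q - 1) * ∫ x in Metric.ball (b (js k)) (r (js k) / ε (js k)), |w x| ^ q)
          atTop (𝓝 0) := by
        have := (hqs.const_mul (2 ^ (q - 1))).add (hw0.const_mul (2 ^ (q - 1)))
        simpa using this
      have hA : Tendsto (fun k => ∫ x in Metric.ball (b (js k)) (r (js k) / ε (js k)),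
          |v (js k) x| ^ q) atTop (𝓝 0) := by
        refine squeeze_zero (fun k => integral_nonneg fun x => by positivity) (fun k => ?_) hup
        have i0 : Integrable (fun x => 2 ^ (q - 1) * |v (js k) x| ^ q +
              2 ^ (q - 1) * |w x| ^ q) := ((hi k).const_mul _).add (hcd.hq.const_mul _)
        have i1 : Integrable (fun x => |v (js k) x - w x| ^ q) := by
          refine i0.mono' (((hsc (js k)).h1.mu.1.sub hcd.hm).norm.aemeasurable.pow_const
            q).aestronglyMeasurable (Eventually.of_forall fun x => ?_)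
          rw [Real.norm_eq_abs, abs_of_nonneg (by positivity)]
          have := half_bound (show 1 ≤ q by linarith) (v (js k) x - w x) (v (js k) x)
          rwa [sub_sub_cancel] at this
        have f1 : ∫ x in Metric.ball (b (js k)) (r (js k) / ε (js k)), |v (js k) x| ^ q ≤
            ∫ x in Metric.ball (b (js k)) (r (js k) / ε (js k)),
              (2 ^ (q - 1) * |w x| ^ q + 2 ^ (q - 1) * |v (js k) x - w x| ^ q) := by
          refine setIntegral_mono (hi k).integrableOn
            ((hcd.hq.const_mul _).add (i1.const_mul _)).integrableOn fun x => ?_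
          have := half_bound (show 1 ≤ q by linarith) (v (js k) x) (w x)
          rw [abs_sub_comm (w x)] at this
          exact this
        rw [integral_add (hcd.hq.const_mul _).integrableOn (i1.const_mul _).integrableOn,
          integral_const_mul, integral_const_mul] at f1
        have f2 : ∫ x in Metric.ball (b (js k)) (r (js k) / ε (js k)), |v (js k) x - w x| ^ q ≤
            ∫ x, |v (js k) x - w x| ^ q :=
          setIntegral_le_integral i1 (Eventually.of_forall fun x => by positivity)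
        have f3 := mul_le_mul_of_nonneg_left f2 (show (0:ℝ) ≤ 2 ^ (q - 1) by positivity)
        linarith
      have := hA.div hqT hP.ne'
      rwa [zero_div] at this
    · have h1 : Tendsto (fun k => ∫ x, ε (js k) ^ 2 * v (js k) x ^ 2) atTop (𝓝 0) :=
        hNc.congr fun k => (integral_const_mul _ _).symm
      have := h1.div hGc hD.ne'
      rwa [zero_div] at this
  refine ⟨?_, ?_, ?_⟩
  · apply tendsto_of_subseq_tendsto
    intro ns hns
    obtain ⟨ms, h1, -⟩ := hmain ns hns
    exact ⟨ms, h1⟩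
  · apply tendsto_of_subseq_tendsto
    intro ns hns
    obtain ⟨ms, -, h1, -⟩ := hmain ns hns
    exact ⟨ms, h1⟩
  · apply tendsto_of_subseq_tendsto
    intro ns hns
    obtain ⟨ms, -, -, h1⟩ := hmain ns hns
    exact ⟨ms, h1⟩

/-- **Concentration of least energy solutions at the scale `ε` of the core.** Let `N ≥ 2`, `p > 2`
subcritical, `0 < ε n ≤ 1`, `ε n → 0`, and let `u n` (with gradient `G n`) be a least energy solution
of `(E_{ε n})`.

(1) There are `y n ∈ ℤ^N` such that for *every* sequence of radii `r n` with `r n / ε n → ∞` (for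
instance `r n = δ` for a fixed `δ > 0`, which is Q1) the balls `B_{r n}(0)` carry asymptotically
all of the energy `∫ (|∇u|² + u²)` and all of the mass `∫ |u|^p` of the translated functions
`u n (· + y n)`.

(2) If `r n / ε n → 0`, then the balls `B_{r n}(a n)`, with arbitrary centres `a n ∈ ℝ^N`, carry
asymptotically nothing of the energy and of the mass.

(3) `∫ u² / ∫ |∇u|² → 0`. -/
theorem result (N : ℕ) (hN : 2 ≤ N) (p : ℝ) (hp : 2 < p)
    (hp' : 3 ≤ N → p < 2 * (N : ℝ) / ((N : ℝ) - 2))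
    (ε : ℕ → ℝ) (hε : ∀ n, 0 < ε n ∧ ε n ≤ 1) (hlim : Tendsto ε atTop (𝓝 0))
    (u : ℕ → E N → ℝ) (G : ℕ → E N → E N) (h : ∀ n, LES N p (ε n) (u n) (G n)) :
    (∃ y : ℕ → Fin N → ℤ, ∀ r : ℕ → ℝ, Tendsto (fun n => r n / ε n) atTop atTop →
      Tendsto (fun n =>
        (∫ x in Metric.ball (0 : E N) (r n),
          (‖G n (x + lat (y n))‖ ^ 2 + u n (x + lat (y n)) ^ 2)) /
          ∫ x, (‖G n (x + lat (y n))‖ ^ 2 + u n (x + lat (y n)) ^ 2)) atTop (𝓝 1) ∧
      Tendsto (fun n => (∫ x in Metric.ball (0 : E N) (r n), |u n (x + lat (y n))| ^ p) /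
          ∫ x, |u n (x + lat (y n))| ^ p) atTop (𝓝 1)) ∧
    (∀ (a : ℕ → E N) (r : ℕ → ℝ), Tendsto (fun n => r n / ε n) atTop (𝓝 0) →
      Tendsto (fun n => (∫ x in Metric.ball (a n) (r n), (‖G n x‖ ^ 2 + u n x ^ 2)) /
        ∫ x, (‖G n x‖ ^ 2 + u n x ^ 2)) atTop (𝓝 0) ∧
      Tendsto (fun n => (∫ x in Metric.ball (a n) (r n), |u n x| ^ p) /
        ∫ x, |u n x| ^ p) atTop (𝓝 0)) ∧
    Tendsto (fun n => (∫ x, u n x ^ 2) / ∫ x, ‖G n x‖ ^ 2) atTop (𝓝 0) := by
  have hq' : ((N:ℝ) - 2) * p < 2 * N := by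
    rcases Nat.lt_or_ge 2 N with h2 | h2
    · have h3 : (0:ℝ) < (N:ℝ) - 2 := by
        have : (3:ℝ) ≤ N := by exact_mod_cast h2
        linarith
      have := hp' h2
      rw [lt_div_iff₀ h3] at this
      linarith
    · have h3 : N = 2 := le_antisymm h2 hN
      subst h3
      norm_num
  refine ⟨concentration hN hp hq' (fun n => (hε n).1) (fun n => (hε n).2) hlim h,
    fun a r hr => ?_, ?_⟩
  · obtain ⟨h1, h2, -⟩ := small hN hp hq' (fun n => (hε n).1) (fun n => (hε n).2) hlim h a r hr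
    exact ⟨h1, h2⟩
  · exact (small hN hp hq' (fun n => (hε n).1) (fun n => (hε n).2) hlim h (fun _ => 0)
      (fun _ => 0) (by simp)).2.2

end Pool.Agent.Results.MP_9ab776_an.ConcentrationScale
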